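import Mathlib
import Pool.Agent.H65.LacLimit

set_option autoImplicit false

namespace Pool.Agent.Results.MP_c20521_an.InfiniteOrder

open Filter Topology Set

noncomputable section

/-- a power series `∑ a_k z^(e_k)` with positive coefficients, converging in the whole plane -/
structure Lac where
  e : ℕ → ℕ
  a : ℕ → ℝ
  e_mono : StrictMono e
  a_pos : ∀ k, 0 < a k
  entire : ∀ z : ℂ, Summable fun k => (a k : ℂ) * z ^ e k

namespace Lac
/-- the entire function -/
def f (F : Lac) (z : ℂ) : ℂ := ∑' k, (F.a k : ℂ) * z ^ F.e k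
def zeros (F : Lac) : Set ℂ := {z | F.f z = 0}
/-- `A(f)`, the upper limit of the gap lengths -/
def A (F : Lac) : ℕ∞ := limsup (fun k => ((F.e (k + 1) - F.e k : ℕ) : ℕ∞)) atTop
/-- `δ(f)`, the lower limit of the moduli of the arguments of the zeros -/
def δ (F : Lac) : ℝ := liminf (fun z : F.zeros => |Complex.arg (z : ℂ)|) cofinite
/-- maximum modulus -/
def M (F : Lac) (r : ℝ) : ℝ := sSup ((fun z : ℂ => ‖F.f z‖) '' Metric.sphere 0 r)
/-- order -/
def order (F : Lac) : EReal :=
  limsup (fun r : ℝ => ((Real.log (Real.log (F.M r)) / Real.log r : ℝ) : EReal)) atTop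
end Lac

/-- the class `G_ρ(n)` -/
def G (n : ℕ) (ρ : EReal) : Set Lac := {F | F.zeros.Infinite ∧ F.A = n ∧ F.order = ρ}

/-- `g_ρ(n)`: the supremum of `δ(f)` over the class `G_ρ(n)` -/
def g (n : ℕ) (ρ : EReal) : ℝ := sSup (Lac.δ '' G n ρ)

theorem Lac.δ_le_pi (F : Lac) (hF : F.zeros.Infinite) : F.δ ≤ Real.pi := by
  have : Infinite F.zeros := Set.infinite_coe_iff.2 hF
  unfold Lac.δ
  refine liminf_le_of_frequently_le (Eventually.frequently ?_) ⟨0, ?_⟩
  · exact Eventually.of_forall (fun z => Complex.abs_arg_le_pi _)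
  · rw [Filter.eventually_map]
    exact Eventually.of_forall (fun z => abs_nonneg _)

theorem Lac.norm_f_le (F : Lac) (w : ℂ) (r : ℝ) (hw : ‖w‖ = r) :
    ‖F.f w‖ ≤ ∑' k, F.a k * r ^ F.e k := by
  have hs : Summable (fun k => ‖(F.a k : ℂ) * w ^ F.e k‖) := summable_norm_iff.2 (F.entire w)
  unfold Lac.f
  refine (norm_tsum_le_tsum_norm hs).trans (le_of_eq ?_)
  congr 1
  funext k
  rw [norm_mul, norm_pow, hw, Complex.norm_real, Real.norm_of_nonneg (F.a_pos k).le]

theorem Lac.norm_f_le_M (F : Lac) (z : ℂ) : ‖F.f z‖ ≤ F.M ‖z‖ := by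
  unfold Lac.M
  apply le_csSup
  · refine ⟨∑' k, F.a k * ‖z‖ ^ F.e k, ?_⟩
    rintro _ ⟨w, hw, rfl⟩
    exact F.norm_f_le w ‖z‖ (by simpa using hw)
  · exact ⟨z, by simp, rfl⟩

open Pool.Agent.H65.LacPS

/-- the starting function `∑ z^k/(2k)!` -/
def f0 (z : ℂ) : ℂ := ∑' k : ℕ, ((1 / (Nat.factorial (2 * k) : ℝ) : ℝ) : ℂ) * z ^ k

theorem PS_f0 : PS (fun k => 1 / (Nat.factorial (2 * k) : ℝ)) f0 := by
  intro x
  refine Summable.hasSum ?_
  refine Summable.of_norm ?_
  have h := (PS_exp 1).summable_norm x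
  refine h.of_nonneg_of_le (fun k => norm_nonneg _) (fun k => ?_)
  simp only [norm_mul]
  refine mul_le_mul_of_nonneg_right ?_ (norm_nonneg _)
  rw [Complex.norm_real, Complex.norm_real, Real.norm_of_nonneg (by positivity),
    Real.norm_of_nonneg (by positivity), one_pow]
  apply one_div_le_one_div_of_le (by positivity)
  exact_mod_cast Nat.factorial_le (by omega)

theorem f0_cos (s : ℂ) : f0 (-s ^ 2) = Complex.cos s := by
  have h1 := PS_f0 (-s ^ 2)
  have h2 := Complex.hasSum_cos s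
  refine h1.unique ?_
  refine hs_congr h2 (fun k => ?_)
  push_cast
  rw [neg_pow (s ^ 2) k, ← pow_mul]
  ring

theorem f0_zero (z : ℂ) : f0 z = 0 ↔ ∃ k : ℤ, z = ((-((2 * k + 1) * Real.pi / 2) ^ 2 : ℝ) : ℂ) := by
  obtain ⟨s, hs⟩ : ∃ s : ℂ, z = -s ^ 2 := by
    obtain ⟨s, hs⟩ := IsAlgClosed.exists_pow_nat_eq (-z) (show 0 < 2 by norm_num)
    exact ⟨s, by rw [hs, neg_neg]⟩
  constructor
  · intro h
    rw [hs, f0_cos, Complex.cos_eq_zero_iff] at h
    obtain ⟨k, hk⟩ := h
    refine ⟨k, ?_⟩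
    rw [hs, hk]
    push_cast
    ring
  · rintro ⟨k, hk⟩
    have : z = -((((2 * k + 1) * Real.pi / 2 : ℝ) : ℂ)) ^ 2 := by
      rw [hk]; push_cast; ring
    rw [this, f0_cos, Complex.cos_eq_zero_iff]
    exact ⟨k, by push_cast; ring⟩

/-- the starting stage -/
def s0 : St where
  a := fun k => 1 / (Nat.factorial (2 * k) : ℝ)
  F := f0
  nn := fun k => by positivity
  one := by simp
  ps := PS_f0

theorem val_s0 : 3 ≤ val s0.a 4 := by
  have h := (PS_f0.hasSum_val 4).summable.sum_le_tsum (Finset.range 2)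
    (fun k _ => by positivity)
  refine le_trans ?_ h
  simp [Finset.sum_range_succ, Nat.factorial]
  norm_num

theorem exists_function (N : ℕ) (hN : 1 ≤ N) : ∃ F ∈ G (N + 1) ⊤,
    F.δ = Real.pi ∧ ∀ z ∈ F.zeros, ∃ x : ℝ, x < 0 ∧ z = x := by
  obtain ⟨a, Gf, M, ha, hPS, hM, hz, hgr⟩ := limit_exists N hN s0 (fun k => by
    show (0:ℝ) < 1 / (Nat.factorial (2 * k) : ℝ)
    positivity) 4 (by norm_num) val_s0
  have hMs : StrictMono M := strictMono_nat_of_lt_succ (fun j => by have := hM j; omega)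
  set p : ℕ → Prop := fun k => a k ≠ 0 with hp
  have hp' : ∀ k, p k ↔ ∀ j, ¬ (M j < k ∧ k ≤ M j + N) := by
    intro k
    rw [hp]
    simp only [ne_eq]
    rw [hz k, not_exists]
  have hpM : ∀ j, p (M j) := by
    intro j
    rw [hp']
    rintro i ⟨h1, h2⟩
    have hij : i < j := hMs.lt_iff_lt.1 h1
    have h3 : M (i + 1) ≤ M j := hMs.monotone (by omega)
    have := hM i
    omega
  have hinf : (Set.ofPred p).Infinite :=
    Set.infinite_of_injective_forall_mem hMs.injective hpM
  set e : ℕ → ℕ := Nat.nth p with he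
  have hemono : StrictMono e := Nat.nth_strictMono hinf
  have hep : ∀ k, p (e k) := fun k => Nat.nth_mem_of_infinite hinf k
  have hrange : ∀ k, p k → ∃ i, e i = k := by
    intro k hk
    exact ⟨Nat.count p k, Nat.nth_count hk⟩
  have hsumz : ∀ z : ℂ, HasSum (fun k => (a (e k) : ℂ) * z ^ e k) (s0.F z * Complex.exp (Gf z)) := by
    intro z
    have h1 := hPS z
    have h2 : ∀ x, x ∉ Set.range e → (a x : ℂ) * z ^ x = 0 := by
      intro x hx
      have : a x = 0 := by
        by_contra hne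
        exact hx (hrange x hne)
      rw [this]; simp
    exact (hemono.injective.hasSum_iff h2).2 h1
  let F : Lac :=
    { e := e
      a := fun k => a (e k)
      e_mono := hemono
      a_pos := fun k => lt_of_le_of_ne (ha _) (Ne.symm (hep k))
      entire := fun z => (hsumz z).summable }
  have hFf : ∀ z, F.f z = f0 z * Complex.exp (Gf z) := fun z => (hsumz z).tsum_eq
  have hFz : ∀ z, z ∈ F.zeros ↔ f0 z = 0 := by
    intro z
    show F.f z = 0 ↔ _
    rw [hFf, mul_eq_zero]
    simp [Complex.exp_ne_zero]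
  have hneg : ∀ z ∈ F.zeros, ∃ x : ℝ, x < 0 ∧ z = x := by
    intro z hz
    rw [hFz, f0_zero] at hz
    obtain ⟨k, hk⟩ := hz
    refine ⟨_, ?_, hk⟩
    have h1 : (2 * (k : ℝ) + 1) ≠ 0 := by
      have : (2 * k + 1 : ℤ) ≠ 0 := by omega
      exact_mod_cast this
    have h2 : (2 * (k : ℝ) + 1) * Real.pi / 2 ≠ 0 :=
      div_ne_zero (mul_ne_zero h1 Real.pi_ne_zero) two_ne_zero
    have := sq_pos_of_ne_zero h2
    linarith
  have hzinf : F.zeros.Infinite := by
    refine Set.infinite_of_injective_forall_mem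
      (f := fun k : ℕ => ((-((2 * (k : ℝ) + 1) * Real.pi / 2) ^ 2 : ℝ) : ℂ)) ?_ ?_
    · intro i j hij
      have h1 : (-((2 * (i : ℝ) + 1) * Real.pi / 2) ^ 2 : ℝ) = -((2 * (j : ℝ) + 1) * Real.pi / 2) ^ 2 := by
        exact Complex.ofReal_injective hij
      have h2 : ((2 * (i : ℝ) + 1) * Real.pi / 2) ^ 2 = ((2 * (j : ℝ) + 1) * Real.pi / 2) ^ 2 := by
        linarith
      have hpi := Real.pi_pos
      rw [sq_eq_sq₀ (by positivity) (by positivity)] at h2
      have h3 : (2 * (i : ℝ) + 1) = 2 * (j : ℝ) + 1 := by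
        have h4 : (2 * (i : ℝ) + 1) * Real.pi = (2 * (j : ℝ) + 1) * Real.pi := by linarith
        exact mul_right_cancel₀ hpi.ne' h4
      have h5 : (i : ℝ) = j := by linarith
      exact_mod_cast h5
    · intro k
      rw [hFz, f0_zero]
      exact ⟨k, by push_cast; ring⟩
  have : Infinite F.zeros := Set.infinite_coe_iff.2 hzinf
  have hδ : F.δ = Real.pi := by
    unfold Lac.δ
    have : (fun z : F.zeros => |Complex.arg (z : ℂ)|) = fun _ => Real.pi := by
      funext z
      obtain ⟨x, hx, hzx⟩ := hneg z z.2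
      rw [hzx, Complex.arg_ofReal_of_neg hx, abs_of_pos Real.pi_pos]
    rw [this, Filter.liminf_const]
  -- gaps
  have hnext : ∀ k x, p x → e k < x → e (k + 1) ≤ x := by
    intro k x hx hk
    obtain ⟨i, hi⟩ := hrange x hx
    rw [← hi] at hk ⊢
    exact hemono.monotone (hemono.lt_iff_lt.1 hk)
  have hpnext : ∀ j, p (M j + N + 1) := by
    intro j
    rw [hp']
    rintro i ⟨h1, h2⟩
    rcases lt_trichotomy i j with h | h | h
    · have h3 : M (i + 1) ≤ M j := hMs.monotone (by omega)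
      have := hM i
      omega
    · subst h; omega
    · have h3 : M (j + 1) ≤ M i := hMs.monotone (by omega)
      have := hM j
      omega
  have hgap : ∀ k, e (k + 1) ≤ e k + (N + 1) := by
    intro k
    by_cases h : p (e k + 1)
    · have := hnext k _ h (by omega)
      omega
    · rw [hp'] at h
      push Not at h
      obtain ⟨j, h1, h2⟩ := h
      have h3 : e k = M j := by
        by_contra hne
        have h4 := (hp' (e k)).1 (hep k) j
        apply h4
        constructor <;> omega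
      have := hnext k _ (hpnext j) (by omega)
      omega
  have hgapeq : ∀ K : ℕ, ∃ k ≥ K, e (k + 1) - e k = N + 1 := by
    intro K
    obtain ⟨k, hk⟩ := hrange _ (hpM (e K))
    have h1 : e K ≤ M (e K) := hMs.id_le _
    refine ⟨k, ?_, ?_⟩
    · rw [← hk] at h1
      exact hemono.le_iff_le.1 h1
    · have h2 := hgap k
      have h3 : e k < e (k + 1) := hemono (Nat.lt_succ_self k)
      have h4 := (hp' (e (k + 1))).1 (hep (k + 1)) (e K)
      rw [← hk] at h4
      omega
  have hA : F.A = ((N + 1 : ℕ) : ℕ∞) := by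
    unfold Lac.A
    apply le_antisymm
    · refine limsup_le_of_le (by isBoundedDefault) (Eventually.of_forall (fun k => ?_))
      have := hgap k
      have h2 : F.e (k + 1) - F.e k ≤ N + 1 := by
        show e (k + 1) - e k ≤ N + 1
        omega
      exact_mod_cast h2
    · refine le_limsup_of_frequently_le ?_ (by isBoundedDefault)
      rw [frequently_atTop]
      intro K
      obtain ⟨k, hk1, hk2⟩ := hgapeq K
      refine ⟨k, hk1, ?_⟩
      have h2 : F.e (k + 1) - F.e k = N + 1 := hk2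
      rw [h2]
  -- order
  have hval : ∀ r : ℝ, 0 ≤ r → val a r ≤ F.M r := by
    intro r hr
    have h1 := F.norm_f_le_M (r : ℂ)
    have h2 : F.f (r : ℂ) = (val a r : ℂ) := by
      rw [← hPS.eq_val r]
      exact hFf r
    rw [h2, Complex.norm_real, Complex.norm_real, Real.norm_of_nonneg hr,
      Real.norm_of_nonneg (PS.val_nonneg ha hr)] at h1
    exact h1
  have hord : F.order = ⊤ := by
    rw [EReal.eq_top_iff_forall_lt]
    intro t
    obtain ⟨j, hj⟩ := exists_nat_gt t
    have hjt : (t : EReal) < ((j : ℝ) : EReal) := by exact_mod_cast hj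
    refine lt_of_lt_of_le hjt ?_
    obtain ⟨c, hc, hcx⟩ := hgr (j + 1)
    unfold Lac.order
    refine le_limsup_of_frequently_le (Eventually.frequently ?_) (by isBoundedDefault)
    have hlog : Tendsto Real.log atTop atTop := Real.tendsto_log_atTop
    filter_upwards [hlog.eventually_ge_atTop (-Real.log c), eventually_ge_atTop (4 : ℝ)] with r h1 h2
    have hr0 : 0 < r := by linarith
    have hlr : 0 < Real.log r := Real.log_pos (by linarith)
    have h3 := (hcx r h2 (by linarith)).trans (hval r hr0.le)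
    have h4 : c * r ^ (j + 1) ≤ Real.log (F.M r) := by
      rw [← Real.log_exp (c * r ^ (j + 1))]
      exact Real.log_le_log (Real.exp_pos _) h3
    have h5 : Real.log (c * r ^ (j + 1)) ≤ Real.log (Real.log (F.M r)) :=
      Real.log_le_log (by positivity) h4
    rw [Real.log_mul hc.ne' (by positivity), Real.log_pow] at h5
    have h6 : (j : ℝ) ≤ Real.log (Real.log (F.M r)) / Real.log r := by
      rw [le_div_iff₀ hlr]
      push_cast at h5
      nlinarith
    exact_mod_cast h6
  exact ⟨F, ⟨hzinf, hA, hord⟩, hδ, hneg⟩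

/-- For every `n ≥ 2` the supremum `g_∞(n)` of `δ(f)` over the functions of infinite order in `G(n)`
is `π`; it is attained, by a function all of whose zeros are negative real numbers, and it is also the
maximum of `δ(f)` over the class `G(n)` without restriction on the order. -/
theorem result (n : ℕ) (hn : 2 ≤ n) :
    g n ⊤ = Real.pi ∧ IsGreatest (Lac.δ '' G n ⊤) Real.pi ∧
    IsGreatest (Lac.δ '' {F : Lac | F.zeros.Infinite ∧ F.A = n}) Real.pi ∧
    ∃ F ∈ G n ⊤, F.δ = Real.pi ∧ ∀ z ∈ F.zeros, ∃ x : ℝ, x < 0 ∧ z = x := by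
  obtain ⟨N, rfl⟩ : ∃ N, n = N + 1 := ⟨n - 1, by omega⟩
  obtain ⟨F, hF, hδ, hneg⟩ := exists_function N (by omega)
  have h1 : IsGreatest (Lac.δ '' G (N + 1) ⊤) Real.pi :=
    ⟨⟨F, hF, hδ⟩, by rintro _ ⟨F', hF', rfl⟩; exact F'.δ_le_pi hF'.1⟩
  refine ⟨h1.csSup_eq, h1, ⟨⟨F, ⟨hF.1, hF.2.1⟩, hδ⟩, ?_⟩, F, hF, hδ, hneg⟩
  rintro _ ⟨F', hF', rfl⟩
  exact F'.δ_le_pi hF'.1

end

end Pool.Agent.Results.MP_c20521_an.InfiniteOrder
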